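import Pool.Agent.R380.St.Atlas
import Pool.Agent.R654.SharpDefs

/-!
General lemmas on partial actions, the set-up for the structures of this folder.
-/

namespace Pool.Agent.R380.St

open Function Classical Pool.Agent.R654.SharpCore

variable {U : Type} {k : ℕ} {S : Setup U k}

theorem gact_inv_act (A : PAct S) {γ : Equiv.Perm (Fin k)} (hγ : γ ∈ S.T A.c)
    {z : U} (hz : z ∈ A.D) : A.act γ⁻¹ (A.act γ z) = z := by
  rw [← A.mul γ⁻¹ (inv_mem hγ) γ hγ z hz, inv_mul_cancel, A.one z hz]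

theorem gact_act_inv (A : PAct S) {γ : Equiv.Perm (Fin k)} (hγ : γ ∈ S.T A.c)
    {z : U} (hz : z ∈ A.D) : A.act γ (A.act γ⁻¹ z) = z := by
  rw [← A.mul γ hγ γ⁻¹ (inv_mem hγ) z hz, mul_inv_cancel, A.one z hz]

/-- Extension of a partial action by a free orbit. -/
theorem gextend (A : PAct S) (y : Equiv.Perm (Fin k) → U)
    (hnew : ∀ γ ∈ S.T A.c, y γ ∉ A.D)
    (hinj : ∀ γ ∈ S.T A.c, ∀ δ ∈ S.T A.c, y γ = y δ → γ = δ)
    (hpres : ∀ γ ∈ S.T A.c, S.P {p | (p.1 ∈ A.D ∧ p.2 = A.act γ p.1) ∨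
      ∃ δ ∈ S.T A.c, p = (y δ, y (γ * δ))}) :
    ∃ B : PAct S, Ext S A B (y 1) ∧ ∀ γ ∈ S.T A.c, B.act γ (y 1) = y γ := by
  let act : Equiv.Perm (Fin k) → U → U := fun γ z =>
    if z ∈ A.D then A.act γ z
    else if h : ∃ δ ∈ S.T A.c, z = y δ then y (γ * h.choose) else z
  have actD : ∀ γ, ∀ z ∈ A.D, act γ z = A.act γ z := fun γ z hz => if_pos hz
  have actY : ∀ γ, ∀ δ ∈ S.T A.c, act γ (y δ) = y (γ * δ) := by
    intro γ δ hδ
    have h : ∃ δ' ∈ S.T A.c, y δ = y δ' := ⟨δ, hδ, rfl⟩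
    have h3 : h.choose = δ := (hinj δ hδ _ h.choose_spec.1 h.choose_spec.2).symm
    simp only [act, if_neg (hnew δ hδ), dif_pos h]
    rw [h3]
  let DB : Finset U := A.D ∪ (Finset.univ.filter (fun γ => γ ∈ S.T A.c)).image y
  have memDB : ∀ z, z ∈ DB ↔ z ∈ A.D ∨ ∃ γ ∈ S.T A.c, z = y γ := by
    intro z
    simp only [DB, Finset.mem_union, Finset.mem_image, Finset.mem_filter, Finset.mem_univ, true_and]
    constructor
    · rintro (h | ⟨γ, hγ, rfl⟩)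
      · exact Or.inl h
      · exact Or.inr ⟨γ, hγ, rfl⟩
    · rintro (h | ⟨γ, hγ, rfl⟩)
      · exact Or.inl h
      · exact Or.inr ⟨γ, hγ, rfl⟩
  let B : PAct S :=
    { c := A.c
      inj := A.inj
      D := DB
      act := act
      c_mem := fun m => (memDB _).2 (Or.inl (A.c_mem m))
      map_mem := by
        intro γ hγ x hx
        rcases (memDB x).1 hx with h | ⟨δ, hδ, rfl⟩
        · rw [actD γ x h]; exact (memDB _).2 (Or.inl (A.map_mem γ hγ x h))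
        · rw [actY γ δ hδ]; exact (memDB _).2 (Or.inr ⟨γ * δ, mul_mem hγ hδ, rfl⟩)
      one := by
        intro x hx
        rcases (memDB x).1 hx with h | ⟨δ, hδ, rfl⟩
        · rw [actD 1 x h]; exact A.one x h
        · rw [actY 1 δ hδ, one_mul]
      mul := by
        intro γ hγ δ hδ x hx
        rcases (memDB x).1 hx with h | ⟨ε, hε, rfl⟩
        · rw [actD _ x h, actD δ x h, actD γ _ (A.map_mem δ hδ x h)]
          exact A.mul γ hγ δ hδ x h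
        · rw [actY _ ε hε, actY δ ε hε, actY γ _ (mul_mem hδ hε), mul_assoc]
      on_c := by
        intro γ hγ m
        rw [actD γ _ (A.c_mem m)]; exact A.on_c γ hγ m
      free := by
        intro γ hγ hne x hx hfix
        rcases (memDB x).1 hx with h | ⟨δ, hδ, rfl⟩
        · rw [actD γ x h] at hfix; exact A.free γ hγ hne x h hfix
        · rw [actY γ δ hδ] at hfix
          have := hinj _ (mul_mem hγ hδ) _ hδ hfix
          exact absurd (mul_eq_right.1 this) hne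
      pres := by
        intro γ hγ
        refine S.mono _ _ ?_ (hpres γ hγ)
        rintro ⟨a, a'⟩ ⟨ha, rfl : a' = act γ a⟩
        simp only at ha
        rcases (memDB a).1 ha with h | ⟨δ, hδ, rfl⟩
        · exact Or.inl ⟨h, actD γ a h⟩
        · exact Or.inr ⟨δ, hδ, by rw [actY γ δ hδ]⟩ }
  have hBy : ∀ γ ∈ S.T A.c, B.act γ (y 1) = y γ := by
    intro γ _
    show act γ (y 1) = y γ
    rw [actY γ 1 (one_mem _), mul_one]
  refine ⟨B, ⟨rfl, fun γ _ x hx => actD γ x hx, fun x => ?_, fun γ hγ => ?_, fun γ hγ δ hδ h => ?_⟩, hBy⟩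
  · show x ∈ DB ↔ _
    rw [memDB]
    constructor
    · rintro (h | ⟨γ, hγ, rfl⟩)
      · exact Or.inl h
      · exact Or.inr ⟨γ, hγ, (hBy γ hγ).symm⟩
    · rintro (h | ⟨γ, hγ, rfl⟩)
      · exact Or.inl h
      · exact Or.inr ⟨γ, hγ, hBy γ hγ⟩
  · rw [hBy γ hγ]; exact hnew γ hγ
  · rw [hBy γ hγ, hBy δ hδ] at h
    exact hinj γ hγ δ hδ h

/-- the twist property when the target groups are the full automorphism groups -/
theorem gtwist (hT : ∀ c, ∀ σ : Equiv.Perm (Fin k), S.P (tup c (c ∘ σ)) → σ ∈ S.T c)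
    (A : PAct S) (H : Subgroup (Equiv.Perm (Fin k)))
    (hH : H ≤ S.T A.c) (b : Fin k → U) (hb : Injective b) (hbD : ∀ m, b m ∈ A.D)
    (hHb : ∀ h ∈ H, ∀ m, A.act h (b m) ∈ Set.range b) (c : Fin k → U)
    (hρ : ∃ ρ : Equiv.Perm (Fin k), S.P (tup c (b ∘ ρ))) :
    ∃ ρ : Equiv.Perm (Fin k), S.P (tup c (b ∘ ρ)) ∧
      ∀ h ∈ H, ∃ σ ∈ S.T c, ∀ m, A.act h (b (ρ m)) = b (ρ (σ m)) := by
  obtain ⟨ρ, hρ⟩ := hρ
  refine ⟨ρ, hρ, fun h hh => ?_⟩
  choose s hs using fun m => hHb h hh m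
  have hsinj : Injective s := by
    intro i j hij
    have h1 : A.act h (b i) = A.act h (b j) := by rw [← hs i, ← hs j, hij]
    have h2 := congrArg (A.act h⁻¹) h1
    rw [gact_inv_act A (hH hh) (hbD i), gact_inv_act A (hH hh) (hbD j)] at h2
    exact hb h2
  let sp : Equiv.Perm (Fin k) := Equiv.ofBijective s (Finite.injective_iff_bijective.1 hsinj)
  have hsp : ∀ m, b (sp m) = A.act h (b m) := fun m => hs m
  have hri : ∀ m, ρ (ρ⁻¹ m) = m := fun m => by simp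
  have hfin : ∀ m, A.act h (b (ρ m)) = b (ρ ((ρ⁻¹ * sp * ρ) m)) := by
    intro m
    simp only [Equiv.Perm.coe_mul, Function.comp]
    rw [hri, hsp]
  refine ⟨ρ⁻¹ * sp * ρ, ?_, hfin⟩
  apply hT
  -- c m ↦ b (ρ m) ↦ h (b (ρ m)) = b (ρ (σ m)) ↦ c (σ m)
  have h1 := S.comp _ _ (S.comp _ _ hρ (A.pres h (hH hh))) (S.symm _ hρ)
  refine S.mono _ _ ?_ h1
  rintro _ ⟨m, rfl⟩
  refine ⟨A.act h (b (ρ m)), ⟨b (ρ m), ⟨m, rfl⟩, hbD _, rfl⟩, ?_⟩
  refine ⟨(ρ⁻¹ * sp * ρ) m, ?_⟩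
  simp only [Function.comp_apply]
  rw [hfin]

/-- from the conclusion of the core theorem to sharp transitivity, when the target groups are the
full automorphism groups -/
theorem gadmits (hT : ∀ c, ∀ σ : Equiv.Perm (Fin k), S.P (tup c (c ∘ σ)) → σ ∈ S.T c)
    (G : Subgroup (Equiv.Perm U))
    (h1 : ∀ g ∈ G, S.P {p | p.2 = g p.1})
    (h2 : ∀ a b : Fin k → U, Injective a → Injective b → S.P (tup a b) →
      ∃ g ∈ G, ∃ σ : Equiv.Perm (Fin k), ∀ m, g (a m) = b (σ m))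
    (h3 : ∀ a : Fin k → U, Injective a → ∃ (ρ : Equiv.Perm (Fin k)) (c : Fin k → U),
      Injective c ∧ S.P (tup (a ∘ ρ) c) ∧
      ∀ σ : Equiv.Perm (Fin k), σ ∈ S.T c ↔ ∃ g ∈ G, ∀ m, g (c m) = c (σ m))
    (h4 : ∀ g ∈ G, ∀ a : Fin k → U, Injective a → (∀ m, g (a m) = a m) → g = 1)
    (a b : Fin k → U) (ha : Injective a) (hb : Injective b) (hab : S.P (tup a b)) :
    ∃! g : G, ∀ i, (g : Equiv.Perm U) (a i) = b i := by
  obtain ⟨g, hg, σ, hσ⟩ := h2 a b ha hb hab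
  -- σ is an automorphism of b
  have hσT : S.P (tup b (b ∘ σ)) := by
    have e := S.comp _ _ (S.symm _ hab) (h1 g hg)
    refine S.mono _ _ ?_ e
    rintro _ ⟨m, rfl⟩
    exact ⟨a m, ⟨m, rfl⟩, (hσ m).symm⟩
  obtain ⟨ρ, c, hc, hbc, hTc⟩ := h3 b hb
  obtain ⟨g1, hg1, σ1, hσ1⟩ := h2 (b ∘ ρ) c (hb.comp ρ.injective) hc hbc
  let π : Equiv.Perm (Fin k) := σ1 * ρ⁻¹
  have hπ : ∀ i, g1 (b i) = c (π i) := by
    intro i
    have := hσ1 (ρ⁻¹ i)
    simpa [π] using this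
  have hσc : π * σ⁻¹ * π⁻¹ ∈ S.T c := by
    apply hT
    -- c (π i) ↦ b i ↦ b (σ⁻¹ i) ↦ c (π (σ⁻¹ i))
    have e := S.comp _ _ (S.comp _ _ (S.symm _ (h1 g1 hg1)) (S.symm _ hσT)) (h1 g1 hg1)
    refine S.mono _ _ ?_ e
    rintro _ ⟨m, rfl⟩
    refine ⟨b (σ⁻¹ (π⁻¹ m)), ⟨b (π⁻¹ m), ?_, ?_⟩, ?_⟩
    · show c m = g1 (b (π⁻¹ m))
      rw [hπ]; simp
    · refine ⟨σ⁻¹ (π⁻¹ m), ?_⟩
      simp
    · show c ((π * σ⁻¹ * π⁻¹) m) = g1 (b (σ⁻¹ (π⁻¹ m)))
      rw [hπ]; rfl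
  obtain ⟨g2, hg2, hg2'⟩ := (hTc _).1 hσc
  have hex : ∀ i, (g1⁻¹ * g2 * g1 * g) (a i) = b i := by
    intro i
    show g1⁻¹ (g2 (g1 (g (a i)))) = b i
    rw [hσ, hπ, hg2']
    have e1 : (π * σ⁻¹ * π⁻¹) (π (σ i)) = π i := by simp
    rw [e1, ← hπ]
    simp
  refine ⟨⟨g1⁻¹ * g2 * g1 * g, mul_mem (mul_mem (mul_mem (inv_mem hg1) hg2) hg1) hg⟩, hex, ?_⟩
  rintro ⟨g', hg'⟩ hg''
  have hg3 : ∀ i, g' (a i) = b i := hg''
  have h5 := h4 ((g1⁻¹ * g2 * g1 * g)⁻¹ * g')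
    (mul_mem (inv_mem (mul_mem (mul_mem (mul_mem (inv_mem hg1) hg2) hg1) hg)) hg') a ha (by
      intro m
      show (g1⁻¹ * g2 * g1 * g)⁻¹ (g' (a m)) = a m
      rw [hg3, ← hex m]
      simp)
  apply Subtype.ext
  exact (inv_mul_eq_one.1 h5).symm

/-! ### The set-up -/

section PPlemmas
variable {M : Type} {R : (Fin 4 → M) → Prop} {E : M → M → Prop}

theorem pp_mono {r s : Set (M × M)} (h : r ⊆ s) (hs : PP R E R E s) : PP R E R E r :=
  ⟨fun x y hxy => hs.1 x y (fun i => h (hxy i)), fun p hp q hq => hs.2 p (h hp) q (h hq)⟩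

theorem pp_symm {r : Set (M × M)} (h : PP R E R E r) : PP R E R E {p | (p.2, p.1) ∈ r} :=
  ⟨fun x y hxy => (h.1 y x (fun i => hxy i)).symm, fun _ hp _ hq => (h.2 _ hp _ hq).symm⟩

theorem pp_comp {r s : Set (M × M)} (hr : PP R E R E r) (hs : PP R E R E s) :
    PP R E R E {p | ∃ y, (p.1, y) ∈ r ∧ (y, p.2) ∈ s} := by
  constructor
  · intro x y hxy
    choose z hz1 hz2 using hxy
    exact (hr.1 x z hz1).trans (hs.1 z y hz2)
  · rintro p ⟨y, h1, h2⟩ q ⟨y', h3, h4⟩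
    exact (hr.2 _ h1 _ h3).trans (hs.2 _ h2 _ h4)

theorem pp_refl (s : Set (M × M)) (hs : ∀ p ∈ s, p.1 = p.2) : PP R E R E s := by
  constructor
  · intro x y hxy
    have : x = y := funext fun i => hs _ (hxy i)
    rw [this]
  · intro p hp q hq
    rw [hs p hp, hs q hq]

end PPlemmas

/-- the set-up of sharp actions for `(M, R, E)` -/
def setup (M : Type) (R : (Fin 4 → M) → Prop) (E : M → M → Prop) : Setup M 4 where
  P r := PP R E R E r
  mono := fun _ _ h hs => pp_mono h hs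
  symm := fun _ h => pp_symm h
  comp := fun _ _ hr hs => pp_comp hr hs
  refl := pp_refl _ (fun _ h => h)
  fin := by
    intro r h
    constructor
    · intro x y hxy
      exact (h {p | ∃ i, p = (x i, y i)} (by rintro _ ⟨i, rfl⟩; exact hxy i)
        ((Set.finite_range (fun i => (x i, y i))).subset (by rintro _ ⟨i, rfl⟩; exact ⟨i, rfl⟩))).1 x y
        (fun i => ⟨i, rfl⟩)
    · intro p hp q hq
      exact (h {p, q} (by intro z hz; rcases hz with rfl | rfl; exacts [hp, hq])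
        (Set.toFinite _)).2 p (by simp) q (by simp)
  T c :=
    { carrier := {σ | PP R E R E (tup c (c ∘ σ))}
      mul_mem' := by
        intro a b ha hb
        refine pp_mono ?_ (pp_comp hb ha)
        rintro _ ⟨m, rfl⟩
        exact ⟨c (b m), ⟨m, rfl⟩, ⟨b m, rfl⟩⟩
      one_mem' := pp_refl _ (by rintro _ ⟨m, rfl⟩; rfl)
      inv_mem' := by
        intro a ha
        refine pp_mono ?_ (pp_symm ha)
        rintro _ ⟨m, rfl⟩
        refine ⟨a⁻¹ m, ?_⟩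
        simp }
  T_sub := fun _ _ _ h => h
  T_inv := by
    intro b c _ _ h
    ext σ
    constructor
    · intro hσ
      refine pp_mono ?_ (pp_comp (pp_comp (pp_symm h) hσ) h)
      rintro _ ⟨m, rfl⟩
      exact ⟨b (σ m), ⟨b m, ⟨m, rfl⟩, ⟨m, rfl⟩⟩, ⟨σ m, rfl⟩⟩
    · intro hσ
      refine pp_mono ?_ (pp_comp (pp_comp h hσ) (pp_symm h))
      rintro _ ⟨m, rfl⟩
      exact ⟨c (σ m), ⟨c m, ⟨m, rfl⟩, ⟨m, rfl⟩⟩, ⟨σ m, rfl⟩⟩

end Pool.Agent.R380.St
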