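import Mathlib

/-!
4-tournaments with a triangle-free graph: equivariant orientations, structures glued from charts,
extension property of the Fraisse limit.
-/

namespace Pool.Agent.R380.St

open Function Classical

/-- a 4-tournament together with a triangle-free graph -/
structure IsST (M : Type) (R : (Fin 4 → M) → Prop) (E : M → M → Prop) : Prop where
  inj : ∀ a, R a → Injective a
  tour : ∀ a, Injective a → ∀ σ : Equiv.Perm (Fin 4), (R (a ∘ σ) ↔ (R a ↔ Equiv.Perm.sign σ = 1))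
  irr : ∀ x, ¬ E x x
  symm : ∀ x y, E x y → E y x
  free : ∀ x y z, E x y → E y z → ¬ E x z

/-- `f` preserves and reflects the relations. -/
def Emb {A M : Type} (R' : (Fin 4 → A) → Prop) (E' : A → A → Prop) (R : (Fin 4 → M) → Prop)
    (E : M → M → Prop) (f : A → M) : Prop :=
  Injective f ∧ (∀ a, R' a ↔ R (f ∘ a)) ∧ ∀ x y, E' x y ↔ E (f x) (f y)

/-- the Fraisse limit -/
structure IsLimit (M : Type) (R : (Fin 4 → M) → Prop) (E : M → M → Prop) : Prop where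
  countable : Countable M
  st : IsST M R E
  universal : ∀ (n : ℕ) (R' : (Fin 4 → Fin n) → Prop) (E' : Fin n → Fin n → Prop), IsST (Fin n) R' E' →
    ∃ f : Fin n → M, Emb R' E' R E f
  homogeneous : ∀ (n : ℕ) (a b : Fin n → M), Injective a → Injective b →
    (∀ x : Fin 4 → Fin n, R (a ∘ x) ↔ R (b ∘ x)) → (∀ i j, E (a i) (a j) ↔ E (b i) (b j)) →
    ∃ g : Equiv.Perm M, (∀ x, R (g ∘ x) ↔ R x) ∧ (∀ x y, E (g x) (g y) ↔ E x y) ∧ ∀ i, g (a i) = b i

/-- a relation all of whose pairs are compatible with `R` and `E` -/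
def PP {M N : Type} (R : (Fin 4 → M) → Prop) (E : M → M → Prop) (R' : (Fin 4 → N) → Prop)
    (E' : N → N → Prop) (r : Set (M × N)) : Prop :=
  (∀ (x : Fin 4 → M) (y : Fin 4 → N), (∀ i, (x i, y i) ∈ r) → (R x ↔ R' y)) ∧
  ∀ p ∈ r, ∀ q ∈ r, (E p.1 q.1 ↔ E' p.2 q.2)

theorem orient {Γ Z : Type} [Group Γ] (act : Γ → Z → Z) (h1 : ∀ z, act 1 z = z)
    (hmul : ∀ γ δ z, act (γ * δ) z = act γ (act δ z))
    (heven : ∀ (a : Fin 4 → Z), Injective a → ∀ γ (σ : Equiv.Perm (Fin 4)),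
      (∀ i, act γ (a i) = a (σ i)) → Equiv.Perm.sign σ = 1) :
    ∃ R0 : (Fin 4 → Z) → Prop, (∀ a, R0 a → Injective a) ∧
      (∀ a, Injective a → ∀ σ : Equiv.Perm (Fin 4), (R0 (a ∘ σ) ↔ (R0 a ↔ Equiv.Perm.sign σ = 1))) ∧
      (∀ γ a, R0 (fun i => act γ (a i)) ↔ R0 a) := by
  have hinv : ∀ γ z, act γ⁻¹ (act γ z) = z := fun γ z => by rw [← hmul, inv_mul_cancel, h1]
  have hinv' : ∀ γ z, act γ (act γ⁻¹ z) = z := fun γ z => by rw [← hmul, mul_inv_cancel, h1]
  have hai : ∀ γ, Injective (act γ) := fun γ z z' h => by rw [← hinv γ z, h, hinv]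
  let s : Setoid (Fin 4 → Z) :=
    { r := fun a b => ∃ γ, ∃ σ : Equiv.Perm (Fin 4), ∀ i, b i = act γ (a (σ i))
      iseqv :=
        { refl := fun a => ⟨1, 1, fun i => (h1 _).symm⟩
          symm := by
            rintro a b ⟨γ, σ, h⟩
            refine ⟨γ⁻¹, σ⁻¹, fun i => ?_⟩
            rw [h, hinv]; simp
          trans := by
            rintro a b c ⟨γ, σ, h⟩ ⟨δ, τ, h'⟩
            refine ⟨δ * γ, σ * τ, fun i => ?_⟩
            rw [h', h, hmul]; rfl } }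
  let rep : (Fin 4 → Z) → (Fin 4 → Z) := fun a => (Quotient.mk s a).out
  have hrep : ∀ a, ∃ γ, ∃ σ : Equiv.Perm (Fin 4), ∀ i, a i = act γ (rep a (σ i)) := fun a =>
    Quotient.exact (Quotient.out_eq (Quotient.mk s a))
  have hrep_eq : ∀ a b γ (σ : Equiv.Perm (Fin 4)), (∀ i, b i = act γ (a (σ i))) → rep b = rep a := by
    intro a b γ σ h
    have : Quotient.mk s a = Quotient.mk s b := Quotient.sound ⟨γ, σ, h⟩
    simp only [rep, this]
  choose γf σf hf using hrep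
  have hrepinj : ∀ a, Injective a → Injective (rep a) := by
    intro a ha i j hij
    have h2 := hf a ((σf a)⁻¹ i)
    have h3 := hf a ((σf a)⁻¹ j)
    simp only [Equiv.Perm.coe_inv, Equiv.apply_symm_apply] at h2 h3
    rw [hij, ← h3] at h2
    exact (σf a).symm.injective (ha h2)
  have huniq : ∀ a, Injective a → ∀ γ (σ : Equiv.Perm (Fin 4)), (∀ i, a i = act γ (rep a (σ i))) →
      Equiv.Perm.sign (σf a) = Equiv.Perm.sign σ := by
    intro a ha γ σ h
    have h2 := heven (rep a) (hrepinj a ha) ((γf a)⁻¹ * γ) (σf a * σ⁻¹) (by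
      intro i
      rw [hmul]
      have h3 := h (σ⁻¹ i)
      simp only [Equiv.Perm.coe_inv, Equiv.apply_symm_apply] at h3
      rw [← h3, hf a (σ.symm i), hinv]
      rfl)
    rw [map_mul, Equiv.Perm.sign_inv] at h2
    have h4 : Equiv.Perm.sign σ * Equiv.Perm.sign σ = 1 := by
      rcases Int.units_eq_one_or (Equiv.Perm.sign σ) with h | h <;> rw [h] <;> rfl
    calc Equiv.Perm.sign (σf a) = Equiv.Perm.sign (σf a) * (Equiv.Perm.sign σ * Equiv.Perm.sign σ) := by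
          rw [h4, mul_one]
      _ = Equiv.Perm.sign σ := by rw [← mul_assoc, h2, one_mul]
  have hu : ∀ x y : ℤˣ, x * y = 1 ↔ (x = 1 ↔ y = 1) := by
    intro x y
    rcases Int.units_eq_one_or x with rfl | rfl <;> rcases Int.units_eq_one_or y with rfl | rfl <;> decide
  refine ⟨fun a => Injective a ∧ Equiv.Perm.sign (σf a) = 1, fun a h => h.1, fun a ha σ => ?_,
    fun γ a => ?_⟩
  · have hinj2 : Injective (a ∘ σ) := ha.comp σ.injective
    have hr : rep (a ∘ σ) = rep a := hrep_eq a (a ∘ σ) 1 σ (fun i => (h1 _).symm)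
    have h2 := huniq (a ∘ σ) hinj2 (γf a) (σf a * σ) (by
      intro i
      rw [hr]
      exact hf a (σ i))
    simp only [ha, hinj2, true_and]
    rw [h2, map_mul]
    exact hu _ _
  · have hiff : Injective (fun i => act γ (a i)) ↔ Injective a := by
      constructor
      · intro h i j hij
        exact h (by simp only [hij])
      · intro h
        exact (hai γ).comp h
    by_cases ha : Injective a
    · have hr : rep (fun i => act γ (a i)) = rep a := hrep_eq a _ γ 1 (fun i => rfl)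
      have h2 := huniq (fun i => act γ (a i)) (hiff.2 ha) (γ * γf a) (σf a) (by
        intro i
        rw [hr, hmul, ← hf a i])
      simp only [hiff.2 ha, ha, true_and]
      rw [h2]
    · simp [hiff, ha]

theorem atlas {Γ Z M I : Type} [Group Γ] {R : (Fin 4 → M) → Prop} {E : M → M → Prop}
    (hM : IsST M R E) (act : Γ → Z → Z) (h1 : ∀ z, act 1 z = z)
    (hmul : ∀ γ δ z, act (γ * δ) z = act γ (act δ z))
    (heven : ∀ (a : Fin 4 → Z), Injective a → ∀ γ (σ : Equiv.Perm (Fin 4)),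
      (∀ i, act γ (a i) = a (σ i)) → Equiv.Perm.sign σ = 1)
    (Ch : I → Z → M → Prop)
    (hfun : ∀ i u w w', Ch i u w → Ch i u w' → w = w')
    (hinj : ∀ i u u' w, Ch i u w → Ch i u' w → u = u')
    (hcompat : ∀ i j, PP R E R E {p | ∃ u, Ch i u p.1 ∧ Ch j u p.2})
    (hinv : ∀ i δ, ∃ j, PP R E R E {p | ∃ u, Ch i u p.1 ∧ Ch j (act δ u) p.2} ∧
      ∀ u w, Ch i u w → ∃ w', Ch j (act δ u) w')
    (htri : ∀ u v w i j k, (∃ a, Ch i u a) → (∃ a, Ch i v a) → (∃ a, Ch j v a) → (∃ a, Ch j w a) →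
      (∃ a, Ch k u a) → (∃ a, Ch k w a) → ∃ l, (∃ a, Ch l u a) ∧ (∃ a, Ch l v a) ∧ (∃ a, Ch l w a)) :
    ∃ (R' : (Fin 4 → Z) → Prop) (E' : Z → Z → Prop), IsST Z R' E' ∧
      (∀ γ a, R' (fun i => act γ (a i)) ↔ R' a) ∧ (∀ γ u v, E' (act γ u) (act γ v) ↔ E' u v) ∧
      (∀ i a w, (∀ m, Ch i (a m) (w m)) → (R' a ↔ R w)) ∧
      (∀ i u v w w', Ch i u w → Ch i v w' → (E' u v ↔ E w w')) := by
  obtain ⟨R0, hR0i, hR0t, hR0g⟩ := orient act h1 hmul heven
  have hact : ∀ γ z, act γ⁻¹ (act γ z) = z := fun γ z => by rw [← hmul, inv_mul_cancel, h1]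
  let F : (Fin 4 → Z) → Prop := fun a => ∃ (i : I) (w : Fin 4 → M), ∀ m, Ch i (a m) (w m)
  let R' : (Fin 4 → Z) → Prop := fun a =>
    (∃ (i : I) (w : Fin 4 → M), (∀ m, Ch i (a m) (w m)) ∧ R w) ∨ (¬ F a ∧ R0 a)
  let E' : Z → Z → Prop := fun u v => ∃ i w w', Ch i u w ∧ Ch i v w' ∧ E w w'
  have chR : ∀ i a w, (∀ m, Ch i (a m) (w m)) → (R' a ↔ R w) := by
    intro i a w h
    constructor
    · rintro (⟨j, w', hw', hR⟩ | ⟨hn, -⟩)
      · exact ((hcompat j i).1 w' w (fun m => ⟨a m, hw' m, h m⟩)).1 hR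
      · exact absurd ⟨i, w, h⟩ hn
    · intro hR
      exact Or.inl ⟨i, w, h, hR⟩
  have chE : ∀ i u v w w', Ch i u w → Ch i v w' → (E' u v ↔ E w w') := by
    intro i u v w w' hu hv
    constructor
    · rintro ⟨j, z, z', hz, hz', hE⟩
      exact ((hcompat j i).2 (z, w) ⟨u, hz, hu⟩ (z', w') ⟨v, hz', hv⟩).1 hE
    · intro hE
      exact ⟨i, w, w', hu, hv, hE⟩
  have hFσ : ∀ a (σ : Equiv.Perm (Fin 4)), F a → F (a ∘ σ) := by
    rintro a σ ⟨i, w, h⟩
    exact ⟨i, w ∘ σ, fun m => h (σ m)⟩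
  have hFγ : ∀ γ a, F a → F (fun i => act γ (a i)) := by
    rintro γ a ⟨i, w, h⟩
    obtain ⟨j, -, h2⟩ := hinv i γ
    choose w' hw' using fun m => h2 _ _ (h m)
    exact ⟨j, w', hw'⟩
  have hRnF : ∀ a, ¬ F a → (R' a ↔ R0 a) := by
    intro a ha
    constructor
    · rintro (⟨j, w', hw', hR⟩ | ⟨-, h⟩)
      · exact absurd ⟨j, w', hw'⟩ ha
      · exact h
    · intro h; exact Or.inr ⟨ha, h⟩
  have hEγ : ∀ γ u v, E' u v → E' (act γ u) (act γ v) := by
    rintro γ u v ⟨i, w, w', hu, hv, hE⟩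
    obtain ⟨j, h2, h3⟩ := hinv i γ
    obtain ⟨z, hz⟩ := h3 _ _ hu
    obtain ⟨z', hz'⟩ := h3 _ _ hv
    exact ⟨j, z, z', hz, hz', (h2.2 (w, z) ⟨u, hu, hz⟩ (w', z') ⟨v, hv, hz'⟩).1 hE⟩
  refine ⟨R', E', ⟨?_, ?_, ?_, ?_, ?_⟩, ?_, ?_, chR, chE⟩
  · rintro a (⟨i, w, hw, hR⟩ | ⟨-, h⟩)
    · intro m n hmn
      have h2 := hw n
      rw [← hmn] at h2
      exact hM.inj w hR (hfun i _ _ _ (hw m) h2)
    · exact hR0i a h
  · intro a ha σ
    by_cases hF : F a
    · obtain ⟨i, w, hw⟩ := hF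
      have hwinj : Injective w := by
        intro m n hmn
        have h2 := hw n
        rw [← hmn] at h2
        exact ha (hinj i _ _ _ (hw m) h2)
      rw [chR i (a ∘ σ) (w ∘ σ) (fun m => hw (σ m)), chR i a w hw]
      exact hM.tour w hwinj σ
    · have hF' : ¬ F (a ∘ σ) := by
        intro h
        apply hF
        have := hFσ _ σ⁻¹ h
        convert this using 1
        funext m
        simp
      rw [hRnF _ hF, hRnF _ hF']
      exact hR0t a ha σ
  · rintro u ⟨i, w, w', hu, hv, hE⟩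
    rw [hfun i u w w' hu hv] at hE
    exact hM.irr _ hE
  · rintro u v ⟨i, w, w', hu, hv, hE⟩
    exact ⟨i, w', w, hv, hu, hM.symm _ _ hE⟩
  · rintro u v w ⟨i, a, b, h2, h3, h4⟩ ⟨j, c, d, h5, h6, h7⟩ ⟨k', e, f, h8, h9, h10⟩
    obtain ⟨l, ⟨a', ha'⟩, ⟨b', hb'⟩, ⟨c', hc'⟩⟩ := htri u v w i j k' ⟨a, h2⟩ ⟨b, h3⟩ ⟨c, h5⟩ ⟨d, h6⟩
      ⟨e, h8⟩ ⟨f, h9⟩
    have e1 := (chE l u v _ _ ha' hb').1 ⟨i, a, b, h2, h3, h4⟩
    have e2 := (chE l v w _ _ hb' hc').1 ⟨j, c, d, h5, h6, h7⟩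
    have e3 := (chE l u w _ _ ha' hc').1 ⟨k', e, f, h8, h9, h10⟩
    exact hM.free _ _ _ e1 e2 e3
  · intro γ a
    by_cases hF : F a
    · obtain ⟨i, w, hw⟩ := hF
      obtain ⟨j, h2, h3⟩ := hinv i γ
      choose w' hw' using fun m => h3 _ _ (hw m)
      rw [chR j _ w' hw', chR i a w hw]
      exact (h2.1 w w' (fun m => ⟨a m, hw m, hw' m⟩)).symm
    · have hF' : ¬ F (fun i => act γ (a i)) := by
        intro h
        apply hF
        have := hFγ γ⁻¹ _ h
        simpa only [hact] using this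
      rw [hRnF _ hF, hRnF _ hF']
      exact hR0g γ a
  · intro γ u v
    constructor
    · intro h
      have := hEγ γ⁻¹ _ _ h
      rwa [hact, hact] at this
    · exact hEγ γ u v

theorem ep {M : Type} {R : (Fin 4 → M) → Prop} {E : M → M → Prop} (hM : IsLimit M R E)
    {Z : Type} [Finite Z] {R' : (Fin 4 → Z) → Prop} {E' : Z → Z → Prop} (hZ : IsST Z R' E')
    (K : Set Z) (r : Z → M) (hr : Set.InjOn r K)
    (hrR : ∀ a : Fin 4 → Z, (∀ i, a i ∈ K) → (R' a ↔ R (r ∘ a)))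
    (hrE : ∀ u ∈ K, ∀ v ∈ K, (E' u v ↔ E (r u) (r v))) :
    ∃ e : Z → M, Emb R' E' R E e ∧ ∀ z ∈ K, e z = r z := by
  obtain ⟨n, ⟨eqv⟩⟩ := Finite.exists_equiv_fin Z
  obtain ⟨f, hf1, hf2, hf3⟩ := hM.universal n (fun a => R' (eqv.symm ∘ a))
    (fun i j => E' (eqv.symm i) (eqv.symm j))
    ⟨fun a h => by
        have := hZ.inj _ h
        exact this.of_comp,
      fun a ha σ => hZ.tour (eqv.symm ∘ a) (eqv.symm.injective.comp ha) σ,
      fun x => hZ.irr _, fun x y h => hZ.symm _ _ h, fun x y z h h' => hZ.free _ _ _ h h'⟩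
  obtain ⟨m, ⟨ek⟩⟩ := Finite.exists_equiv_fin K
  let kk : Fin m → Z := fun i => (ek.symm i).1
  have hkk : Injective kk := Subtype.val_injective.comp ek.symm.injective
  have hkK : ∀ i, kk i ∈ K := fun i => (ek.symm i).2
  have hf2' : ∀ a : Fin 4 → Z, R' a ↔ R (fun i => f (eqv (a i))) := by
    intro a
    have := hf2 (fun i => eqv (a i))
    have h2 : (eqv.symm ∘ fun i => eqv (a i)) = a := by funext i; simp
    simp only [h2] at this
    exact this
  have hf3' : ∀ u v, E' u v ↔ E (f (eqv u)) (f (eqv v)) := by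
    intro u v
    have := hf3 (eqv u) (eqv v)
    simpa using this
  obtain ⟨g, hg1, hg2, hg3⟩ := hM.homogeneous m (fun i => f (eqv (kk i))) (fun i => r (kk i))
    (hf1.comp (eqv.injective.comp hkk))
    (fun i j hij => hkk (hr (hkK i) (hkK j) hij))
    (fun x => by
      have e1 := hf2' (fun i => kk (x i))
      have e2 := hrR (fun i => kk (x i)) (fun i => hkK _)
      exact e1.symm.trans e2)
    (fun i j => (hf3' _ _).symm.trans (hrE _ (hkK i) _ (hkK j)))
  refine ⟨fun z => g (f (eqv z)), ⟨?_, ?_, ?_⟩, ?_⟩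
  · exact g.injective.comp (hf1.comp eqv.injective)
  · intro a
    rw [hf2' a]
    exact (hg1 (fun i => f (eqv (a i)))).symm
  · intro u v
    rw [hf3' u v]
    exact (hg2 _ _).symm
  · intro z hz
    have := hg3 (ek ⟨z, hz⟩)
    simpa [kk] using this

theorem step {M : Type} {R : (Fin 4 → M) → Prop} {E : M → M → Prop} (hM : IsLimit M R E)
    {Z : Type} [Finite Z] {R' : (Fin 4 → Z) → Prop} {E' : Z → Z → Prop} (hZ : IsST Z R' E')
    (K : Set Z) (r : Z → M) (hr : Set.InjOn r K)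
    (hrR : ∀ a : Fin 4 → Z, (∀ i, a i ∈ K) → (R' a ↔ R (r ∘ a)))
    (hrE : ∀ u ∈ K, ∀ v ∈ K, (E' u v ↔ E (r u) (r v)))
    (S : Finset M) (hS : ∀ z ∈ K, r z ∈ S) :
    ∃ e : Z → M, Emb R' E' R E e ∧ (∀ z ∈ K, e z = r z) ∧ ∀ z, z ∉ K → e z ∉ S := by
  -- an embedding of `Z` in `M`
  have hMne : Nonempty M := by
    obtain ⟨f, -⟩ := hM.universal 1 (fun _ => False) (fun _ _ => False)
      ⟨fun _ h => h.elim, fun a ha => absurd (Fintype.card_le_of_injective a ha) (by simp),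
        fun _ h => h, fun _ _ h => h, fun _ _ _ h => h.elim⟩
    exact ⟨f 0⟩
  obtain ⟨f, ⟨hf1, hf2, hf3⟩, -⟩ := ep hM hZ ∅ (fun _ => hMne.some) (by simp)
    (fun a ha => (ha 0).elim) (by simp)
  let jZ : Z → {s // s ∈ S} ⊕ {z // z ∉ K} := fun z =>
    if h : z ∈ K then Sum.inl ⟨r z, hS z h⟩ else Sum.inr ⟨z, h⟩
  have jZ1 : ∀ z (h : z ∈ K), jZ z = Sum.inl ⟨r z, hS z h⟩ := fun z h => dif_pos h
  have jZ2 : ∀ z (h : z ∉ K), jZ z = Sum.inr ⟨z, h⟩ := fun z h => dif_neg h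
  have hjinj : Injective jZ := by
    intro z z' h
    by_cases hz : z ∈ K
    · by_cases hz' : z' ∈ K
      · rw [jZ1 z hz, jZ1 z' hz'] at h
        have := congrArg Subtype.val (Sum.inl.inj h)
        exact hr hz hz' this
      · rw [jZ1 z hz, jZ2 z' hz'] at h
        exact absurd h (by simp)
    · by_cases hz' : z' ∈ K
      · rw [jZ2 z hz, jZ1 z' hz'] at h
        exact absurd h (by simp)
      · rw [jZ2 z hz, jZ2 z' hz'] at h
        exact congrArg Subtype.val (Sum.inr.inj h)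
  let Ch : Bool → ({s // s ∈ S} ⊕ {z // z ∉ K}) → M → Prop := fun b u w =>
    match b with
    | false => ∃ s : {s // s ∈ S}, u = Sum.inl s ∧ w = s.1
    | true => ∃ z : Z, u = jZ z ∧ w = f z
  have hst := hM.st
  -- compatibility of the two charts
  have hrel : ∀ (s : {s // s ∈ S}) (z : Z), Sum.inl s = jZ z → z ∈ K ∧ s.1 = r z := by
    intro s z h
    by_cases hz : z ∈ K
    · rw [jZ1 z hz] at h
      exact ⟨hz, congrArg Subtype.val (Sum.inl.inj h)⟩
    · rw [jZ2 z hz] at h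
      exact absurd h (by simp)
  have hc : PP R E R E {p | ∃ u, Ch false u p.1 ∧ Ch true u p.2} := by
    have key : ∀ p ∈ {p : M × M | ∃ u, Ch false u p.1 ∧ Ch true u p.2}, ∃ z ∈ K, p.1 = r z ∧ p.2 = f z := by
      rintro ⟨p1, p2⟩ ⟨u, ⟨s, rfl, hs⟩, ⟨z, hz, hz'⟩⟩
      obtain ⟨h3, h4⟩ := hrel s z hz
      exact ⟨z, h3, hs.trans h4, hz'⟩
    constructor
    · intro x y hxy
      choose z hz1 hz2 hz3 using fun i => key _ (hxy i)
      simp only at hz2 hz3
      have e1 : x = r ∘ z := funext hz2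
      have e2 : y = f ∘ z := funext hz3
      rw [e1, e2, ← hrR z hz1, ← hf2]
    · intro p hp q hq
      obtain ⟨z, hz, h3, h4⟩ := key p hp
      obtain ⟨z', hz', h5, h6⟩ := key q hq
      rw [h3, h4, h5, h6, ← hrE z hz z' hz', ← hf3]
  have hid : ∀ s : Set (M × M), (∀ p ∈ s, p.1 = p.2) → PP R E R E s := by
    intro s hs
    constructor
    · intro x y hxy
      have : x = y := funext fun i => hs _ (hxy i)
      rw [this]
    · intro p hp q hq
      rw [hs p hp, hs q hq]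
  have hfun : ∀ i u w w', Ch i u w → Ch i u w' → w = w' := by
    rintro (_ | _) u w w'
    · rintro ⟨s, rfl, rfl⟩ ⟨s', h, rfl⟩
      rw [Sum.inl.inj h]
    · rintro ⟨z, rfl, rfl⟩ ⟨z', h, rfl⟩
      rw [hjinj h]
  have hcc : ∀ i j, PP R E R E {p | ∃ u, Ch i u p.1 ∧ Ch j u p.2} := by
    rintro (_ | _) (_ | _)
    · exact hid _ (by rintro p ⟨u, h, h'⟩; exact hfun false _ _ _ h h')
    · exact hc
    · constructor
      · intro x y hxy
        exact (hc.1 y x (fun i => by obtain ⟨u, h, h'⟩ := hxy i; exact ⟨u, h', h⟩)).symm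
      · rintro p ⟨u, h, h'⟩ q ⟨v, h2, h2'⟩
        exact (hc.2 (p.2, p.1) ⟨u, h', h⟩ (q.2, q.1) ⟨v, h2', h2⟩).symm
    · exact hid _ (by rintro p ⟨u, h, h'⟩; exact hfun true _ _ _ h h')
  obtain ⟨R2, E2, hST, -, -, hR2, hE2⟩ := atlas (Γ := Unit) hst (fun _ z => z) (fun _ => rfl)
    (fun _ _ _ => rfl)
    (by
      intro a ha _ σ h
      have : σ = 1 := by ext i; rw [← ha (h i)]; rfl
      rw [this, map_one]) Ch hfun
    (by
      rintro (_ | _) u u' w
      · rintro ⟨s, rfl, rfl⟩ ⟨s', rfl, h⟩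
        rw [Subtype.ext h]
      · rintro ⟨z, rfl, rfl⟩ ⟨z', rfl, h⟩
        rw [hf1 h])
    hcc
    (fun i _ => ⟨i, hcc i i, fun u w h => ⟨w, h⟩⟩)
    (by
      have hinl : ∀ s : {s // s ∈ S}, ∃ a, Ch false (Sum.inl s) a := fun s => ⟨s.1, s, rfl, rfl⟩
      have hinr : ∀ (z : {z // z ∉ K}) i, (∃ a, Ch i (Sum.inr z) a) → i = true := by
        rintro z (_ | _) ⟨a, h⟩
        · obtain ⟨s, h, -⟩ := h
          exact absurd h (by simp)
        · rfl
      intro u v w i j k h2 h3 h4 h5 h6 h7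
      rcases u with u | u
      · rcases v with v | v
        · rcases w with w | w
          · exact ⟨false, hinl _, hinl _, hinl _⟩
          · have e1 := hinr w j h5
            have e2 := hinr w k h7
            subst e1; subst e2
            exact ⟨true, h6, h4, h7⟩
        · have e1 := hinr v i h3
          have e2 := hinr v j h4
          subst e1; subst e2
          exact ⟨true, h2, h3, h5⟩
      · have e1 := hinr u i h2
        have e2 := hinr u k h6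
        subst e1; subst e2
        exact ⟨true, h2, h3, h7⟩)
  obtain ⟨e, ⟨he1, he2, he3⟩, he4⟩ := ep hM hST (Set.range Sum.inl)
    (Sum.elim Subtype.val (fun _ => hMne.some))
    (by
      rintro _ ⟨s, rfl⟩ _ ⟨t, rfl⟩ h
      have h' : s.1 = t.1 := h
      rw [Subtype.ext h'])
    (by
      intro a ha
      choose s hs using ha
      apply hR2 false
      intro m
      refine ⟨s m, (hs m).symm, ?_⟩
      rw [Function.comp_apply, ← hs m]
      rfl)
    (by
      rintro _ ⟨s, rfl⟩ _ ⟨t, rfl⟩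
      exact hE2 false _ _ _ _ ⟨s, rfl, rfl⟩ ⟨t, rfl, rfl⟩)
  refine ⟨fun z => e (jZ z), ⟨he1.comp hjinj, ?_, ?_⟩, ?_, ?_⟩
  · intro a
    have h3 := he2 (fun i => jZ (a i))
    have h4 := hR2 true (fun i => jZ (a i)) (fun i => f (a i)) (fun m => ⟨a m, rfl, rfl⟩)
    exact (hf2 a).trans (h4.symm.trans h3)
  · intro u v
    have h3 := he3 (jZ u) (jZ v)
    have h4 := hE2 true (jZ u) (jZ v) (f u) (f v) ⟨u, rfl, rfl⟩ ⟨v, rfl, rfl⟩
    exact (hf3 u v).trans (h4.symm.trans h3)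
  · intro z hz
    show e (jZ z) = r z
    rw [jZ1 z hz, he4 _ ⟨_, rfl⟩]
    rfl
  · intro z hz hzS
    have h3 : e (Sum.inl ⟨e (jZ z), hzS⟩) = e (jZ z) := he4 _ ⟨_, rfl⟩
    exact absurd ((he1 h3).trans (jZ2 z hz)) (by simp)

end Pool.Agent.R380.St
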