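import Pool.Agent.R380.St.Good

/-!
Auxiliary facts for the final theorem: the limit is infinite.
-/

namespace Pool.Agent.R380.St

open Function Classical Pool.Agent.R654.SharpCore

variable {M : Type} {R : (Fin 4 → M) → Prop} {E : M → M → Prop}

theorem infinite (hM : IsLimit M R E) : Infinite M := by
  by_contra hfin
  have : Finite M := not_infinite_iff_finite.1 hfin
  have : Fintype M := Fintype.ofFinite M
  obtain ⟨R0, h1, h2, -⟩ := orient (Γ := Unit) (Z := Fin (Fintype.card M + 1)) (fun _ z => z)
    (fun _ => rfl) (fun _ _ _ => rfl)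
    (by
      intro a ha _ σ h
      have : σ = 1 := by ext i; rw [← ha (h i)]; rfl
      rw [this, map_one])
  obtain ⟨f, hf, -⟩ := hM.universal (Fintype.card M + 1) R0 (fun _ _ => False)
    ⟨h1, h2, fun _ h => h, fun _ _ h => h, fun _ _ _ h => h.elim⟩
  have := Fintype.card_le_of_injective f hf
  simp at this

theorem pp_tup (a b : Fin 4 → M) (h1 : ∀ x : Fin 4 → Fin 4, R (a ∘ x) ↔ R (b ∘ x))
    (h2 : ∀ i j, E (a i) (a j) ↔ E (b i) (b j)) : (setup M R E).P (tup a b) := by
  constructor
  · intro x y hxy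
    choose z hz using hxy
    have e1 : x = a ∘ z := funext fun i => congrArg Prod.fst (hz i)
    have e2 : y = b ∘ z := funext fun i => congrArg Prod.snd (hz i)
    rw [e1, e2]
    exact h1 z
  · rintro _ ⟨i, rfl⟩ _ ⟨j, rfl⟩
    exact h2 i j

end Pool.Agent.R380.St
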