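import Pool.Agent.R380.St.Act

/-!
The free superposition of the random 4-tournament and the triangle-free random graph satisfies the
hypotheses `Good` of the core theorem on sharp actions.
-/

namespace Pool.Agent.R380.St

open Function Classical Pool.Agent.R654.SharpCore

variable {M : Type} {R : (Fin 4 → M) → Prop} {E : M → M → Prop}

theorem T_even (hM : IsST M R E) {c : Fin 4 → M} (hc : Injective c) {γ : Equiv.Perm (Fin 4)}
    (hγ : γ ∈ (setup M R E).T c) : Equiv.Perm.sign γ = 1 := by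
  have h1 : R c ↔ R (c ∘ γ) := hγ.1 c (c ∘ γ) (fun i => ⟨i, rfl⟩)
  have h2 := hM.tour c hc γ
  tauto

theorem perm4 : ∀ γ : Equiv.Perm (Fin 4), Equiv.Perm.sign γ = 1 →
    γ = 1 ∨ γ * γ * γ = 1 ∨ (γ * γ = 1 ∧ ∀ m, γ m ≠ m) := by decide

theorem perm4b : ∀ σ : Equiv.Perm (Fin 4), σ * σ = 1 → (∀ m, σ m ≠ m) → Equiv.Perm.sign σ = 1 := by
  decide

theorem perm4c : ∀ γ : Equiv.Perm (Fin 4), Equiv.Perm.sign γ = 1 → γ ≠ 1 →
    (Finset.univ.filter (fun m => γ m = m)).card ≤ 1 := by decide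

theorem good_prime (hM : IsST M R E) (c : Fin 4 → M) (hc : Injective c) (γ : Equiv.Perm (Fin 4))
    (hγ : γ ∈ (setup M R E).T c) (hp : (orderOf γ).Prime) :
    Nat.card {m : Fin 4 // γ m = m} < orderOf γ := by
  have hne : γ ≠ 1 := by
    rintro rfl
    rw [orderOf_one] at hp
    exact Nat.not_prime_one hp
  have h2 := hp.two_le
  have h3 := perm4c γ (T_even hM hc hγ) hne
  rw [Nat.card_eq_fintype_card, Fintype.card_subtype]
  have h4 : (Finset.univ.filter (fun m => γ m = m)).card ≤ 1 := by convert h3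
  omega

/-- the target group acting on the domain and a free orbit -/
def zact (A : PAct (setup M R E)) (γ : (setup M R E).T A.c) :
    ({d // d ∈ A.D} ⊕ (setup M R E).T A.c) → ({d // d ∈ A.D} ⊕ (setup M R E).T A.c)
  | Sum.inl d => Sum.inl ⟨A.act γ d, A.map_mem γ γ.2 d d.2⟩
  | Sum.inr δ => Sum.inr (γ * δ)

theorem zact_one (A : PAct (setup M R E)) (z) : zact A 1 z = z := by
  rcases z with d | δ
  · show Sum.inl _ = Sum.inl _
    congr 1
    exact Subtype.ext (A.one d d.2)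
  · show Sum.inr _ = Sum.inr _
    rw [one_mul]

theorem zact_mul (A : PAct (setup M R E)) (γ δ z) : zact A (γ * δ) z = zact A γ (zact A δ z) := by
  rcases z with d | ε
  · show Sum.inl _ = Sum.inl _
    congr 1
    exact Subtype.ext (A.mul γ γ.2 δ δ.2 d d.2)
  · show Sum.inr _ = Sum.inr _
    rw [mul_assoc]

theorem zact_inj (A : PAct (setup M R E)) (γ) : Injective (zact A γ) := by
  intro z z' h
  have h1 : zact A γ⁻¹ (zact A γ z) = z := by rw [← zact_mul, inv_mul_cancel, zact_one]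
  have h2 : zact A γ⁻¹ (zact A γ z') = z' := by rw [← zact_mul, inv_mul_cancel, zact_one]
  rw [← h1, h, h2]

theorem zeven (hM : IsST M R E) (A : PAct (setup M R E))
    (a : Fin 4 → ({d // d ∈ A.D} ⊕ (setup M R E).T A.c)) (ha : Injective a)
    (γ : (setup M R E).T A.c) (σ : Equiv.Perm (Fin 4)) (h : ∀ i, zact A γ (a i) = a (σ i)) :
    Equiv.Perm.sign σ = 1 := by
  rcases perm4 γ (T_even hM A.inj γ.2) with h1 | h1 | ⟨h1, h2⟩
  · have h2 : γ = 1 := Subtype.ext h1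
    subst h2
    have : σ = 1 := by
      ext i
      have := h i
      rw [zact_one] at this
      rw [← ha this]; rfl
    rw [this, map_one]
  · have h2 : γ * γ * γ = 1 := Subtype.ext h1
    have h3 : σ * σ * σ = 1 := by
      ext i
      have h4 : a (σ (σ (σ i))) = a i := by
        rw [← h, ← h, ← h, ← zact_mul, ← zact_mul, h2, zact_one]
      have h5 := ha h4
      show ((σ (σ (σ i)) : Fin 4) : ℕ) = i
      rw [h5]
    have h4 := congrArg Equiv.Perm.sign h3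
    rw [map_mul, map_mul, map_one] at h4
    rcases Int.units_eq_one_or (Equiv.Perm.sign σ) with h5 | h5
    · exact h5
    · rw [h5] at h4
      exact absurd h4 (by decide)
  · have h3 : γ * γ = 1 := Subtype.ext h1
    apply perm4b
    · ext i
      have h4 : a (σ (σ i)) = a i := by rw [← h, ← h, ← zact_mul, h3, zact_one]
      have h5 := ha h4
      show ((σ (σ i) : Fin 4) : ℕ) = i
      rw [h5]
    · intro m hm
      have h4 := h m
      rw [hm] at h4
      rcases hz : a m with d | δ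
      · rw [hz] at h4
        have h5 : A.act γ d = d := congrArg Subtype.val (Sum.inl.inj h4)
        have hne : (γ : Equiv.Perm (Fin 4)) ≠ 1 := by
          intro h6
          exact h2 0 (by rw [h6]; rfl)
        obtain ⟨m', hm'⟩ := A.free γ γ.2 hne d d.2 h5
        have h6 := A.on_c γ γ.2 m'
        rw [hm', h5, ← hm'] at h6
        exact h2 m' (A.inj h6).symm
      · rw [hz] at h4
        have h5 : γ * δ = δ := Sum.inr.inj h4
        have h6 : γ = 1 := mul_eq_right.1 h5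
        subst h6
        exact h2 0 rfl

theorem orbit_ext (A : PAct (setup M R E))
    {R' : (Fin 4 → ({d // d ∈ A.D} ⊕ (setup M R E).T A.c)) → Prop}
    {E' : ({d // d ∈ A.D} ⊕ (setup M R E).T A.c) → ({d // d ∈ A.D} ⊕ (setup M R E).T A.c) → Prop}
    (hR : ∀ γ a, R' (fun i => zact A γ (a i)) ↔ R' a)
    (hE : ∀ γ u v, E' (zact A γ u) (zact A γ v) ↔ E' u v)
    (e : ({d // d ∈ A.D} ⊕ (setup M R E).T A.c) → M) (he : Emb R' E' R E e)
    (hed : ∀ d : {d // d ∈ A.D}, e (Sum.inl d) = d) :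
    ∃ B : PAct (setup M R E), Ext (setup M R E) A B (e (Sum.inr 1)) ∧
      ∀ γ (hγ : γ ∈ (setup M R E).T A.c), B.act γ (e (Sum.inr 1)) = e (Sum.inr ⟨γ, hγ⟩) := by
  let y : Equiv.Perm (Fin 4) → M := fun γ =>
    if h : γ ∈ (setup M R E).T A.c then e (Sum.inr ⟨γ, h⟩) else e (Sum.inr 1)
  have hy : ∀ γ (h : γ ∈ (setup M R E).T A.c), y γ = e (Sum.inr ⟨γ, h⟩) := fun γ h => dif_pos h
  have hy1 : y 1 = e (Sum.inr 1) := hy 1 (one_mem _)
  obtain ⟨B, hB1, hB2⟩ := gextend A y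
    (by
      intro γ hγ hmem
      rw [hy γ hγ] at hmem
      have h1 := hed ⟨_, hmem⟩
      have h2 := he.1 h1
      exact absurd h2 (by simp))
    (by
      intro γ hγ δ hδ h
      rw [hy γ hγ, hy δ hδ] at h
      have h2 := Sum.inr.inj (he.1 h)
      exact congrArg Subtype.val h2)
    (by
      intro γ hγ
      have key : ∀ p ∈ {p : M × M | (p.1 ∈ A.D ∧ p.2 = A.act γ p.1) ∨
          ∃ δ ∈ (setup M R E).T A.c, p = (y δ, y (γ * δ))},
          ∃ z, p.1 = e z ∧ p.2 = e (zact A ⟨γ, hγ⟩ z) := by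
        rintro ⟨p1, p2⟩ (⟨h1, h2⟩ | ⟨δ, hδ, h1⟩)
        · refine ⟨Sum.inl ⟨p1, h1⟩, ?_, ?_⟩
          · show p1 = e (Sum.inl _)
            rw [hed]
          · show p2 = e (Sum.inl _)
            rw [hed]
            exact h2
        · rw [Prod.mk.injEq] at h1
          refine ⟨Sum.inr ⟨δ, hδ⟩, ?_, ?_⟩
          · rw [← hy δ hδ]; exact h1.1
          · show p2 = e (Sum.inr _)
            rw [h1.2, hy _ (mul_mem hγ hδ)]
            rfl
      constructor
      · intro a b hab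
        choose z hz1 hz2 using fun i => key _ (hab i)
        simp only at hz1 hz2
        have e1 : a = e ∘ z := funext hz1
        have e2 : b = e ∘ (fun i => zact A ⟨γ, hγ⟩ (z i)) := funext hz2
        rw [e1, e2, ← he.2.1, ← he.2.1]
        exact (hR _ _).symm
      · intro p hp q hq
        obtain ⟨z, hz1, hz2⟩ := key p hp
        obtain ⟨z', hz1', hz2'⟩ := key q hq
        rw [hz1, hz2, hz1', hz2', ← he.2.2, ← he.2.2]
        exact (hE _ _ _).symm)
  rw [hy1] at hB1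
  refine ⟨B, hB1, fun γ hγ => ?_⟩
  have := hB2 γ hγ
  rw [hy1, hy γ hγ] at this
  exact this

theorem good_ext1 (hM : IsLimit M R E) (A : PAct (setup M R E)) (x : M) (hx : x ∉ A.D)
    (F : Finset M) : ∃ B : PAct (setup M R E), Ext (setup M R E) A B x ∧ B.act 1 x = x ∧
      ∀ γ ∈ (setup M R E).T A.c, γ ≠ 1 → B.act γ x ∉ F := by
  let Z := {d // d ∈ A.D} ⊕ (setup M R E).T A.c
  let Ch : (setup M R E).T A.c → Z → M → Prop := fun γ u w =>
    (∃ d : {d // d ∈ A.D}, zact A γ u = Sum.inl d ∧ w = d) ∨ (zact A γ u = Sum.inr 1 ∧ w = x)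
  have hfun : ∀ i u w w', Ch i u w → Ch i u w' → w = w' := by
    rintro i u w w' (⟨d, h1, h2⟩ | ⟨h1, h2⟩) (⟨d', h3, h4⟩ | ⟨h3, h4⟩)
    · rw [h1] at h3
      rw [h2, h4, Sum.inl.inj h3]
    · rw [h1] at h3
      exact absurd h3 (by simp)
    · rw [h1] at h3
      exact absurd h3 (by simp)
    · rw [h2, h4]
  have hinj : ∀ i u u' w, Ch i u w → Ch i u' w → u = u' := by
    rintro i u u' w (⟨d, h1, h2⟩ | ⟨h1, h2⟩) (⟨d', h3, h4⟩ | ⟨h3, h4⟩)
    · apply zact_inj A i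
      rw [h1, h3]
      congr 1
      exact Subtype.ext (h2.symm.trans h4)
    · exact absurd (h4 ▸ h2 ▸ d.2) hx
    · exact absurd (h2 ▸ h4 ▸ d'.2) hx
    · apply zact_inj A i
      rw [h1, h3]
  have hcompat : ∀ i j, PP R E R E {p | ∃ u, Ch i u p.1 ∧ Ch j u p.2} := by
    intro i j
    by_cases hij : i = j
    · subst hij
      exact pp_refl _ (by rintro p ⟨u, h, h'⟩; exact hfun _ _ _ _ h h')
    · refine pp_mono ?_ (A.pres (j * i⁻¹ : (setup M R E).T A.c) (j * i⁻¹).2)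
      rintro ⟨w, w'⟩ ⟨u, h, h'⟩
      have hu : zact A j u = zact A (j * i⁻¹) (zact A i u) := by
        rw [← zact_mul, inv_mul_cancel_right]
      rcases h with ⟨d, h1, h2⟩ | ⟨h1, h2⟩
      · rw [h1] at hu
        simp only at h2
        subst h2
        rcases h' with ⟨d', h3, h4⟩ | ⟨h3, h4⟩
        · rw [h3] at hu
          refine ⟨d.2, ?_⟩
          have h5 : d' = ⟨A.act (j * i⁻¹ : (setup M R E).T A.c) d, _⟩ := Sum.inl.inj hu
          simp only at h4
          rw [h4, h5]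
        · rw [h3] at hu
          exact absurd hu (by simp [zact])
      · rw [h1] at hu
        rcases h' with ⟨d', h3, h4⟩ | ⟨h3, h4⟩
        · rw [h3] at hu
          exact absurd hu (by simp [zact])
        · rw [h3] at hu
          have h5 : 1 = j * i⁻¹ * 1 := Sum.inr.inj hu
          rw [mul_one] at h5
          exact absurd (mul_inv_eq_one.1 h5.symm).symm hij
  have hdom : ∀ (δ : (setup M R E).T A.c) i, (∃ a, Ch i (Sum.inr δ) a) → i = δ⁻¹ := by
    rintro δ i ⟨a, ⟨d, h1, -⟩ | ⟨h1, -⟩⟩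
    · exact absurd h1 (by simp [zact])
    · have h2 : i * δ = 1 := Sum.inr.inj h1
      exact eq_inv_of_mul_eq_one_left h2
  have hdoml : ∀ (d : {d // d ∈ A.D}) i, ∃ a, Ch i (Sum.inl d) a := fun d i =>
    ⟨A.act i d, Or.inl ⟨⟨A.act i d, A.map_mem i i.2 d d.2⟩, rfl, rfl⟩⟩
  obtain ⟨R', E', hST, hRi, hEi, hRc, hEc⟩ := atlas hM.st (zact A) (zact_one A) (zact_mul A)
    (fun a ha γ σ h => zeven hM.st A a ha γ σ h) Ch hfun hinj hcompat
    (by
      intro i δ
      refine ⟨i * δ⁻¹, pp_refl _ ?_, ?_⟩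
      · rintro p ⟨u, h, h'⟩
        refine hfun i u _ _ h ?_
        simpa only [Ch, ← zact_mul, inv_mul_cancel_right] using h'
      · intro u w h
        refine ⟨w, ?_⟩
        simpa only [Ch, ← zact_mul, inv_mul_cancel_right] using h)
    (by
      intro u v w i j k h2 h3 h4 h5 h6 h7
      rcases u with u | u
      · rcases v with v | v
        · rcases w with w | w
          · exact ⟨1, hdoml _ _, hdoml _ _, hdoml _ _⟩
          · exact ⟨j, hdoml _ _, h4, h5⟩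
        · have e1 := hdom v i h3
          have e2 := hdom v j h4
          subst e1; subst e2
          exact ⟨_, h2, h3, h5⟩
      · have e1 := hdom u i h2
        have e2 := hdom u k h6
        subst e1; subst e2
        exact ⟨_, h2, h3, h7⟩)
  have hCh1 : ∀ z ∈ (Set.range Sum.inl ∪ {Sum.inr 1} : Set Z),
      Ch 1 z (Sum.elim Subtype.val (fun _ => x) z) := by
    rintro _ (⟨d, rfl⟩ | rfl)
    · exact Or.inl ⟨d, zact_one A _, rfl⟩
    · exact Or.inr ⟨zact_one A _, rfl⟩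
  obtain ⟨e, he1, he2, he3⟩ := step hM hST (Set.range Sum.inl ∪ {Sum.inr 1})
    (Sum.elim Subtype.val (fun _ => x))
    (by
      intro z hz z' hz' h
      have h1 := hCh1 z hz
      rw [h] at h1
      exact hinj 1 _ _ _ h1 (hCh1 z' hz'))
    (by
      intro a ha
      exact hRc 1 a _ (fun m => hCh1 _ (ha m)))
    (by
      intro u hu v hv
      exact hEc 1 _ _ _ _ (hCh1 u hu) (hCh1 v hv))
    (F ∪ A.D ∪ {x})
    (by
      rintro _ (⟨d, rfl⟩ | rfl)
      · simp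
      · simp)
  have hx1 : e (Sum.inr 1) = x := he2 _ (Or.inr rfl)
  obtain ⟨B, hB1, hB2⟩ := orbit_ext A hRi hEi e he1 (fun d => he2 _ (Or.inl ⟨d, rfl⟩))
  rw [hx1] at hB1
  refine ⟨B, hB1, ?_, ?_⟩
  · have := hB2 1 (one_mem _)
    rw [hx1] at this
    exact this.trans hx1
  · intro γ hγ hne hF
    have h1 := hB2 γ hγ
    rw [hx1] at h1
    rw [h1] at hF
    refine he3 (Sum.inr ⟨γ, hγ⟩) ?_ (by simp [hF])
    rintro (⟨d, h⟩ | h)
    · exact absurd h (by simp)
    · have h2 := Sum.inr.inj h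
      exact hne (congrArg Subtype.val h2)

theorem good_ext2 (hM : IsLimit M R E) (A B : PAct (setup M R E))
    (H : Subgroup (Equiv.Perm (Fin 4))) (φ : H →* Equiv.Perm (Fin 4))
    (hHA : H ≤ (setup M R E).T A.c) (hφB : ∀ h, φ h ∈ (setup M R E).T B.c) (hφ : Injective φ)
    (RR : Finset M) (τ : M → M) (hRD : RR ⊆ A.D) (hτD : ∀ z ∈ RR, τ z ∈ B.D)
    (hτi : Set.InjOn τ RR)
    (hτeq : ∀ h : H, ∀ z ∈ RR, A.act h z ∈ RR ∧ τ (A.act h z) = B.act (φ h) (τ z))
    (hτP : (setup M R E).P {p | p.1 ∈ RR ∧ p.2 = τ p.1})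
    (x : M) (hxD : x ∈ A.D) (hxR : x ∉ RR) (hxfree : ∀ h : H, A.act h x = x → h = 1)
    (F : Finset M) : ∃ (B' : PAct (setup M R E)) (y : M), Ext (setup M R E) B B' y ∧ B'.act 1 y = y ∧
      (∀ γ ∈ (setup M R E).T B.c, B'.act γ y ∉ F) ∧
      (setup M R E).P {p | (p.1 ∈ RR ∧ p.2 = τ p.1) ∨ ∃ h : H, p = (A.act h x, B'.act (φ h) y)} := by
  have hH : ∀ h : H, (h : Equiv.Perm (Fin 4)) ∈ (setup M R E).T A.c := fun h => hHA h.2
  let Z := {d // d ∈ B.D} ⊕ (setup M R E).T B.c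
  let Ψ : Z → M → Prop := fun u w =>
    (w ∈ RR ∧ ∃ d : {d // d ∈ B.D}, u = Sum.inl d ∧ (d : M) = τ w) ∨
      (∃ h : H, w = A.act h x ∧ u = Sum.inr ⟨φ h, hφB h⟩)
  have hA1 : A.act 1 x = x := A.one x hxD
  have hΨfun : ∀ u w w', Ψ u w → Ψ u w' → w = w' := by
    rintro u w w' (⟨h1, d, rfl, h2⟩ | ⟨h, h1, rfl⟩) (⟨h3, d', h4, h5⟩ | ⟨h', h3, h4⟩)
    · have h6 := Sum.inl.inj h4
      subst h6
      exact hτi h1 h3 (h2.symm.trans h5)
    · exact absurd h4 (by simp)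
    · exact absurd h4 (by simp)
    · have h6 := congrArg Subtype.val (Sum.inr.inj h4)
      have h7 : h = h' := hφ h6
      rw [h1, h3, h7]
  have hxorb : ∀ h : H, A.act h x ∉ RR := by
    intro h hR
    have h1 := (hτeq h⁻¹ _ hR).1
    have h2 : A.act ((h⁻¹ : H) : Equiv.Perm (Fin 4)) (A.act h x) = x := gact_inv_act A (hH h) hxD
    rw [h2] at h1
    exact hxR h1
  have hΨinj : ∀ u u' w, Ψ u w → Ψ u' w → u = u' := by
    rintro u u' w (⟨h1, d, rfl, h2⟩ | ⟨h, h1, rfl⟩) (⟨h3, d', rfl, h5⟩ | ⟨h', h3, rfl⟩)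
    · congr 1
      exact Subtype.ext (h2.trans h5.symm)
    · exact absurd (h3 ▸ h1) (hxorb h')
    · exact absurd (h1 ▸ h3) (hxorb h)
    · have h4 : A.act ((h⁻¹ * h' : H) : Equiv.Perm (Fin 4)) x = x := by
        have e1 : A.act ((h⁻¹ * h' : H) : Equiv.Perm (Fin 4)) x =
          A.act ((h⁻¹ : H) : Equiv.Perm (Fin 4)) (A.act h' x) := A.mul _ (hH h⁻¹) _ (hH h') x hxD
        rw [e1, ← h3, h1]
        exact gact_inv_act A (hH h) hxD
      have h5 := hxfree _ h4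
      have h6 : h = h' := inv_mul_eq_one.1 h5
      rw [h6]
  have hΨmem : ∀ u w, Ψ u w → w ∈ A.D := by
    rintro u w (⟨h1, -⟩ | ⟨h, rfl, -⟩)
    · exact hRD h1
    · exact A.map_mem _ (hH h) x hxD
  have hΨeq : ∀ (k : H) u w, Ψ u w → Ψ (zact B ⟨φ k, hφB k⟩ u) (A.act k w) := by
    rintro k u w (⟨h1, d, rfl, h2⟩ | ⟨h, rfl, rfl⟩)
    · refine Or.inl ⟨(hτeq k w h1).1, ⟨_, B.map_mem _ (hφB k) d d.2⟩, rfl, ?_⟩
      show B.act (φ k) d = _
      rw [(hτeq k w h1).2, h2]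
    · refine Or.inr ⟨k * h, ?_, ?_⟩
      · exact (A.mul _ (hH k) _ (hH h) x hxD).symm
      · show Sum.inr _ = Sum.inr _
        congr 1
        apply Subtype.ext
        show φ k * φ h = φ (k * h)
        rw [map_mul]
  let Ch : Option ((setup M R E).T B.c) → Z → M → Prop := fun o u w =>
    match o with
    | none => ∃ d : {d // d ∈ B.D}, u = Sum.inl d ∧ w = d
    | some γ => Ψ (zact B γ u) w
  have hfun : ∀ i u w w', Ch i u w → Ch i u w' → w = w' := by
    rintro (_ | γ) u w w' h h'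
    · obtain ⟨d, h1, h2⟩ := h
      obtain ⟨d', h3, h4⟩ := h'
      rw [h1] at h3
      rw [h2, h4, Sum.inl.inj h3]
    · exact hΨfun _ _ _ h h'
  have hinj : ∀ i u u' w, Ch i u w → Ch i u' w → u = u' := by
    rintro (_ | γ) u u' w h h'
    · obtain ⟨d, h1, h2⟩ := h
      obtain ⟨d', h3, h4⟩ := h'
      rw [h1, h3]
      congr 1
      exact Subtype.ext (h2.symm.trans h4)
    · exact zact_inj B γ (hΨinj _ _ _ h h')
  have hns : ∀ γ, PP R E R E {p | ∃ u, Ch none u p.1 ∧ Ch (some γ) u p.2} := by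
    intro γ
    refine pp_mono ?_ (pp_comp (B.pres γ γ.2) (pp_symm hτP))
    rintro ⟨w, w'⟩ ⟨u, ⟨d, rfl, h1⟩, h2⟩
    simp only at h1
    subst h1
    rcases h2 with ⟨h3, d', h4, h5⟩ | ⟨h, -, h4⟩
    · have h6 : (⟨B.act γ d, _⟩ : {d // d ∈ B.D}) = d' := Sum.inl.inj h4
      refine ⟨B.act γ d, ⟨d.2, rfl⟩, h3, ?_⟩
      show B.act γ d = τ w'
      rw [← h5, ← h6]
    · exact absurd h4 (by simp [zact])
  have hcompat : ∀ i j, PP R E R E {p | ∃ u, Ch i u p.1 ∧ Ch j u p.2} := by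
    rintro (_ | γ) (_ | δ)
    · exact pp_refl _ (by rintro p ⟨u, h, h'⟩; exact hfun none _ _ _ h h')
    · exact hns δ
    · refine pp_mono ?_ (pp_symm (hns γ))
      rintro p ⟨u, h, h'⟩
      exact ⟨u, h', h⟩
    · have hu : ∀ u, zact B δ u = zact B (δ * γ⁻¹) (zact B γ u) := by
        intro u
        rw [← zact_mul, inv_mul_cancel_right]
      by_cases hε : ∃ k : H, ((δ * γ⁻¹ : (setup M R E).T B.c) : Equiv.Perm (Fin 4)) = φ k
      · obtain ⟨k, hk⟩ := hε
        have hk' : δ * γ⁻¹ = ⟨φ k, hφB k⟩ := Subtype.ext hk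
        refine pp_mono ?_ (A.pres k (hH k))
        rintro ⟨w, w'⟩ ⟨u, h, h'⟩
        refine ⟨hΨmem _ _ h, ?_⟩
        have h1 : Ψ (zact B δ u) w' := h'
        rw [hu, hk'] at h1
        exact hΨfun _ _ _ h1 (hΨeq k _ _ h)
      · refine pp_mono ?_ (pp_comp (pp_comp hτP (B.pres (δ * γ⁻¹ : (setup M R E).T B.c) (δ * γ⁻¹).2))
          (pp_symm hτP))
        rintro ⟨w, w'⟩ ⟨u, h, h'⟩
        have h1 : Ψ (zact B δ u) w' := h'
        have h0 : Ψ (zact B γ u) w := h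
        rw [hu] at h1
        rcases h0 with ⟨h2, d, h3, h4⟩ | ⟨k, h2, h3⟩
        · rw [h3] at h1
          rcases h1 with ⟨h5, d', h6, h7⟩ | ⟨k', h5, h6⟩
          · have h8 : (⟨B.act (δ * γ⁻¹ : (setup M R E).T B.c) d, _⟩ : {d // d ∈ B.D}) = d' :=
              Sum.inl.inj h6
            refine ⟨B.act (δ * γ⁻¹ : (setup M R E).T B.c) d, ⟨d, ⟨h2, h4⟩, d.2, rfl⟩, h5, ?_⟩
            show B.act (δ * γ⁻¹ : (setup M R E).T B.c) d = τ w'
            rw [← h7, ← h8]
          · exact absurd h6 (by simp [zact])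
        · rw [h3] at h1
          rcases h1 with ⟨h5, d', h6, h7⟩ | ⟨k', h5, h6⟩
          · exact absurd h6 (by simp [zact])
          · exfalso
            apply hε
            refine ⟨k' * k⁻¹, ?_⟩
            have h8 : (δ * γ⁻¹) * ⟨φ k, hφB k⟩ = (⟨φ k', hφB k'⟩ : (setup M R E).T B.c) :=
              Sum.inr.inj h6
            have h9 := congrArg Subtype.val h8
            have h10 : ((δ * γ⁻¹ : (setup M R E).T B.c) : Equiv.Perm (Fin 4)) * φ k = φ k' := h9
            rw [map_mul, map_inv, ← h10, mul_inv_cancel_right]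
  have hdomr : ∀ (δ : (setup M R E).T B.c) i, (∃ a, Ch i (Sum.inr δ) a) → ∀ v, (∃ a, Ch i v a) →
      ∃ a, Ch (some δ⁻¹) v a := by
    rintro δ (_ | γ) ⟨a, ha⟩ v ⟨b, hb⟩
    · obtain ⟨d, h1, -⟩ := ha
      exact absurd h1 (by simp)
    · rcases ha with ⟨-, d, h1, -⟩ | ⟨h, -, h1⟩
      · exact absurd h1 (by simp [zact])
      · have h2 : γ * δ = ⟨φ h, hφB h⟩ := Sum.inr.inj h1
        have h3 : δ⁻¹ = ⟨φ h⁻¹, hφB h⁻¹⟩ * γ := by
          have h4 : (⟨φ h⁻¹, hφB h⁻¹⟩ : (setup M R E).T B.c) = (⟨φ h, hφB h⟩ : (setup M R E).T B.c)⁻¹ := by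
            apply Subtype.ext
            show φ h⁻¹ = (φ h)⁻¹
            rw [map_inv]
          rw [h4, ← h2]
          group
        refine ⟨A.act (h⁻¹ : H) b, ?_⟩
        show Ψ (zact B δ⁻¹ v) _
        rw [h3, zact_mul]
        exact hΨeq h⁻¹ _ _ hb
  have hself : ∀ δ : (setup M R E).T B.c, ∃ a, Ch (some δ⁻¹) (Sum.inr δ) a := by
    intro δ
    refine ⟨A.act (1 : H) x, Or.inr ⟨1, rfl, ?_⟩⟩
    show Sum.inr _ = Sum.inr _
    congr 1
    rw [inv_mul_cancel]
    apply Subtype.ext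
    show (1 : Equiv.Perm (Fin 4)) = φ 1
    rw [map_one]
  have hdoml : ∀ (d : {d // d ∈ B.D}), ∃ a, Ch none (Sum.inl d) a := fun d => ⟨d, d, rfl, rfl⟩
  obtain ⟨R', E', hST, hRi, hEi, hRc, hEc⟩ := atlas hM.st (zact B) (zact_one B) (zact_mul B)
    (fun a ha γ σ h => zeven hM.st B a ha γ σ h) Ch hfun hinj hcompat
    (by
      rintro (_ | γ) δ
      · refine ⟨none, ?_, ?_⟩
        · refine pp_mono ?_ (B.pres δ δ.2)
          rintro ⟨w, w'⟩ ⟨u, ⟨d, rfl, h1⟩, ⟨d', h2, h3⟩⟩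
          simp only at h1 h3
          subst h1
          refine ⟨d.2, ?_⟩
          have h4 : (⟨B.act δ d, _⟩ : {d // d ∈ B.D}) = d' := Sum.inl.inj h2
          rw [h3, ← h4]
        · rintro u w ⟨d, rfl, h⟩
          exact ⟨B.act δ d, ⟨_, B.map_mem δ δ.2 d d.2⟩, rfl, rfl⟩
      · refine ⟨some (γ * δ⁻¹), pp_refl _ ?_, ?_⟩
        · rintro p ⟨u, h, h'⟩
          refine hfun (some γ) u _ _ h ?_
          have h1 : Ψ (zact B (γ * δ⁻¹) (zact B δ u)) p.2 := h'
          rw [← zact_mul, inv_mul_cancel_right] at h1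
          exact h1
        · intro u w h
          refine ⟨w, ?_⟩
          show Ψ (zact B (γ * δ⁻¹) (zact B δ u)) w
          rw [← zact_mul, inv_mul_cancel_right]
          exact h)
    (by
      intro u v w i j k h2 h3 h4 h5 h6 h7
      rcases u with u | u
      · rcases v with v | v
        · rcases w with w | w
          · exact ⟨none, hdoml _, hdoml _, hdoml _⟩
          · exact ⟨some w⁻¹, hdomr w k h7 _ h6, hdomr w j h5 _ h4, hself w⟩
        · exact ⟨some v⁻¹, hdomr v i h3 _ h2, hself v, hdomr v j h4 _ h5⟩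
      · exact ⟨some u⁻¹, hself u, hdomr u i h2 _ h3, hdomr u k h6 _ h7⟩)
  have hCh0 : ∀ z ∈ (Set.range Sum.inl : Set Z), Ch none z (Sum.elim Subtype.val (fun _ => x) z) := by
    rintro _ ⟨d, rfl⟩
    exact ⟨d, rfl, rfl⟩
  obtain ⟨e, he1, he2, he3⟩ := step hM hST (Set.range Sum.inl)
    (Sum.elim Subtype.val (fun _ => x))
    (by
      intro z hz z' hz' h
      have h1 := hCh0 z hz
      rw [h] at h1
      exact hinj none _ _ _ h1 (hCh0 z' hz'))
    (by
      intro a ha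
      exact hRc none a _ (fun m => hCh0 _ (ha m)))
    (by
      intro u hu v hv
      exact hEc none _ _ _ _ (hCh0 u hu) (hCh0 v hv))
    (F ∪ B.D)
    (by
      rintro _ ⟨d, rfl⟩
      simp)
  obtain ⟨B', hB1, hB2⟩ := orbit_ext B hRi hEi e he1 (fun d => he2 _ ⟨d, rfl⟩)
  refine ⟨B', e (Sum.inr 1), hB1, hB2 1 (one_mem _), ?_, ?_⟩
  · intro γ hγ hF
    rw [hB2 γ hγ] at hF
    refine he3 (Sum.inr ⟨γ, hγ⟩) ?_ (by simp [hF])
    rintro ⟨d, h⟩
    exact absurd h (by simp)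
  · have key : ∀ p ∈ {p : M × M | (p.1 ∈ RR ∧ p.2 = τ p.1) ∨
        ∃ h : H, p = (A.act h x, B'.act (φ h) (e (Sum.inr 1)))}, ∃ u, Ψ u p.1 ∧ p.2 = e u := by
      rintro ⟨p1, p2⟩ (⟨h1, h2⟩ | ⟨h, h1⟩)
      · refine ⟨Sum.inl ⟨τ p1, hτD _ h1⟩, Or.inl ⟨h1, _, rfl, rfl⟩, ?_⟩
        rw [he2 _ ⟨_, rfl⟩]
        exact h2
      · rw [Prod.mk.injEq] at h1
        refine ⟨Sum.inr ⟨φ h, hφB h⟩, Or.inr ⟨h, h1.1, rfl⟩, ?_⟩
        show p2 = _
        rw [h1.2, hB2 _ (hφB h)]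
    have hCh1 : ∀ u w, Ψ u w → Ch (some 1) u w := by
      intro u w h
      show Ψ (zact B 1 u) w
      rw [zact_one]; exact h
    constructor
    · intro a b hab
      choose z hz1 hz2 using fun i => key _ (hab i)
      have e2 : b = e ∘ z := funext hz2
      rw [e2, ← he1.2.1]
      exact (hRc (some 1) z a (fun m => hCh1 _ _ (hz1 m))).symm
    · intro p hp q hq
      obtain ⟨z, hz1, hz2⟩ := key p hp
      obtain ⟨z', hz1', hz2'⟩ := key q hq
      rw [hz2, hz2', ← he1.2.2]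
      exact (hEc (some 1) _ _ _ _ (hCh1 _ _ hz1) (hCh1 _ _ hz1')).symm

theorem good_fresh (hM : IsLimit M R E) (b : Fin 4 → M) (hb : Injective b) (F : Finset M) :
    ∃ c : Fin 4 → M, Injective c ∧ (setup M R E).P (tup b c) ∧ ∀ m, c m ∉ F := by
  have hST : IsST (Fin 4) (fun a => R (b ∘ a)) (fun i j => E (b i) (b j)) :=
    ⟨fun a h => (hM.st.inj _ h).of_comp, fun a ha σ => hM.st.tour (b ∘ a) (hb.comp ha) σ,
      fun x => hM.st.irr _, fun x y h => hM.st.symm _ _ h, fun x y z h h' => hM.st.free _ _ _ h h'⟩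
  obtain ⟨e, he1, -, he3⟩ := step hM hST ∅ b (by simp) (fun a ha => (ha 0).elim) (by simp) F (by simp)
  refine ⟨e, he1.1, ?_, fun m => he3 m (by simp)⟩
  constructor
  · intro x y hxy
    choose z hz using hxy
    have e1 : x = b ∘ z := funext fun i => congrArg Prod.fst (hz i)
    have e2 : y = e ∘ z := funext fun i => congrArg Prod.snd (hz i)
    rw [e1, e2, ← he1.2.1]
  · rintro _ ⟨i, rfl⟩ _ ⟨j, rfl⟩
    exact he1.2.2 i j

/-- the hypotheses of the core theorem -/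
theorem good (hM : IsLimit M R E) : Good (setup M R E) where
  prime := fun c hc γ hγ hp => good_prime hM.st c hc γ hγ hp
  fresh := good_fresh hM
  twist := fun A H hH b hb hbD hHb c _ hρ => gtwist (fun _ _ h => h) A H hH b hb hbD hHb c hρ
  ext1 := fun A x hx F => good_ext1 hM A x hx F
  ext2 := fun A B H φ h1 h2 h3 RR τ _ h5 h6 h7 h8 h9 x h10 h11 h12 F =>
    good_ext2 hM A B H φ h1 h2 h3 RR τ h5 h6 h7 h8 h9 x h10 h11 h12 F

end Pool.Agent.R380.St
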